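import Pool.Agent.V7H80.Sum.B9

/-!
MP_e5d0a4_an, question Q1: for every `n ≥ 3` there is `ε > 0` such that every Borel set of reals
of Hausdorff dimension larger than `2 / n - ε` has a dilated sumset with `n` summands and
nonempty interior.
-/

open MeasureTheory

namespace Pool.Agent.Results.MP_e5d0a4_an.SumInteriorH80

/-- Q1, answered positively. The coefficient of the first summand is `1`. -/
theorem result : ∀ n : ℕ, 3 ≤ n → ∃ ε : ℝ, 0 < ε ∧ ∀ A : Set ℝ, MeasurableSet A →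
    ENNReal.ofReal (2 / (n : ℝ) - ε) < dimH A →
    ∃ t : Fin n → ℝ, (∀ i : Fin n, (i : ℕ) = 0 → t i = 1) ∧
      (interior {x : ℝ | ∃ a : Fin n → ℝ, (∀ i, a i ∈ A) ∧ x = ∑ i, t i * a i}).Nonempty := by
  intro n hn
  obtain ⟨m, rfl⟩ : ∃ m, n = m + 1 := ⟨n - 1, by omega⟩
  refine ⟨Pool.Agent.V7H80.Sum.epsd m, Pool.Agent.V7H80.Sum.epsd_pos m, ?_⟩
  intro A hA hdim
  obtain ⟨t, ht, hint⟩ := Pool.Agent.V7H80.Sum.main m (by omega) hA (by
    have : (((m + 1 : ℕ)) : ℝ) = (m : ℝ) + 1 := by push_cast; ring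
    rwa [this] at hdim)
  refine ⟨t, ?_, hint⟩
  intro i hi
  have : i = 0 := Fin.ext hi
  rw [this]; exact ht

end Pool.Agent.Results.MP_e5d0a4_an.SumInteriorH80
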